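import Pool.Agent.H88.PW.Main

/-!
# `P = W` for all products of classical groups from one sequence of groups
-/

set_option autoImplicit false

open Pool.Agent.H88.PW

namespace Pool.Agent.Results.MP_65ad7c_ag.OneSequenceOfGroups

/-- **Q1 and Q2 for all varieties and all products of groups `GL_n`, `O_n`, `Sp_{2n}` follow from
an approximate form of Q2 for surfaces and one sequence of symplectic (or orthogonal) groups.** -/
theorem result (T : Theory) (N : Set ℕ) (e : ℕ → ℕ)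
    (hN : ∀ A : ℕ, ∃ n ∈ N, A * (e n + 1) ≤ n) :
    (∀ f : ℕ → Cl, f = Cl.sp ∨ f = Cl.o →
      ((∀ X G, (T.coh X G).Q1 ∧ (T.coh X G).Q2) ↔
        ∀ S, T.surf S → ∀ n ∈ N, (T.coh S (f n)).Q2) ∧
      ((∀ X G, (T.coh X G).Q1 ∧ (T.coh X G).Q2) ↔
        ∀ S, T.surf S → ∀ n ∈ N, (T.coh S (f n)).WinP (e n) ∧ (T.coh S (f n)).PinW (e n)) ∧
      ((∀ X G, (T.coh X G).OddInP) ↔
        ∀ S, T.surf S → ∀ n ∈ N, (T.coh S (f n)).WinP (e n)) ∧
      ((∀ X G, (T.coh X G).PinW 0) ↔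
        ∀ S, T.surf S → ∀ n ∈ N, (T.coh S (f n)).PinW (e n)) ∧
      ((∀ X G, (T.coh X G).Q1) ↔ ∀ S, T.surf S → ∀ n ∈ N, (T.coh S (f n)).Q1)) ∧
    ((∀ X n, (T.coh X (Cl.gl n)).Q1 ∧ (T.coh X (Cl.gl n)).Q2) ↔
      ∀ S, T.surf S → ∀ n ∈ N,
        (T.coh S (Cl.gl n)).WinP (e n) ∧ (T.coh S (Cl.gl n)).PinW (e n)) := by
  have hN0 : ∀ A : ℕ, ∃ n ∈ N, A * ((fun _ => 0 : ℕ → ℕ) n + 1) ≤ n := by
    intro A
    obtain ⟨n, hn, h⟩ := hN A
    exact ⟨n, hn, by nlinarith⟩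
  have hap : ∀ {A : Bif} (e : ℕ), A.Q1 ∧ A.Q2 → A.WinP e ∧ A.PinW e := by
    intro A e h
    obtain ⟨h1, h2⟩ := Bif.both_iff.1 h
    exact ⟨h1.winP e, h2.mono (Nat.zero_le e)⟩
  have hq2 : ∀ {A : Bif}, A.Q2 → A.WinP 0 ∧ A.PinW 0 := by
    intro A h
    refine ⟨fun k => ?_, fun k => ?_⟩
    · rw [h k, Nat.cast_zero, add_zero]
    · rw [← h k, Nat.cast_zero, add_zero]
  refine ⟨fun f hf => ⟨⟨fun h S _ n _ => (h S _).2, fun h => ?_⟩,
    ⟨fun h S _ n _ => hap _ (h S _), fun h => ?_⟩,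
    ⟨fun h S _ n _ => (h S _).winP _, fun h => ?_⟩,
    ⟨fun h S _ n _ => (h S _).mono (Nat.zero_le _), fun h => ?_⟩,
    ⟨fun h S _ n _ => h S _, fun h => ?_⟩⟩, ⟨fun h S _ n _ => hap _ (h S n), fun h => ?_⟩⟩
  · have hf' := Theory.IsUniversal.family hf
    have h1 := Theory.all_of_universal T Theory.stable_oddInP hf
      (Theory.seq_oddInP hf' hN0 fun S hS n hn => (hq2 (h S hS n hn)).1)
    have h2 := Theory.all_of_universal T Theory.stable_pinW hf
      (Theory.seq_pinW hf' hN0 fun S hS n hn => (hq2 (h S hS n hn)).2)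
    exact fun X G => Bif.both_iff.2 ⟨h1 X G, h2 X G⟩
  · have hf' := Theory.IsUniversal.family hf
    have h1 := Theory.all_of_universal T Theory.stable_oddInP hf
      (Theory.seq_oddInP hf' hN fun S hS n hn => (h S hS n hn).1)
    have h2 := Theory.all_of_universal T Theory.stable_pinW hf
      (Theory.seq_pinW hf' hN fun S hS n hn => (h S hS n hn).2)
    exact fun X G => Bif.both_iff.2 ⟨h1 X G, h2 X G⟩
  · exact Theory.all_of_universal T Theory.stable_oddInP hf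
      (Theory.seq_oddInP (Theory.IsUniversal.family hf) hN h)
  · exact Theory.all_of_universal T Theory.stable_pinW hf
      (Theory.seq_pinW (Theory.IsUniversal.family hf) hN h)
  · exact Theory.all_of_universal T Theory.stable_q1 hf
      (Theory.seq_q1 (Theory.IsUniversal.family hf) hN h)
  · exact fun X n => Bif.both_iff.2
      ⟨Theory.seq_oddInP Cl.split_gl hN (fun S hS n hn => (h S hS n hn).1) X n,
        Theory.seq_pinW Cl.split_gl hN (fun S hS n hn => (h S hS n hn).2) X n⟩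

end Pool.Agent.Results.MP_65ad7c_ag.OneSequenceOfGroups
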