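import Pool.Agent.H88.PC.Main

/-!
# `P = W` for products of varieties

Let `X` and `Y` be connected smooth complex projective varieties. The moduli spaces for `X × Y`
contain many components which are not pulled back from a factor: a representation of the product of
the fundamental groups is a pair of commuting representations. We show that nevertheless Q1 and Q2
for `X × Y` follow from Q1 and Q2 for the two factors.

* For every `n`, Q1 (or: Q1 and Q2) holds for `X × Y` and the groups `GL_m`, `m ≤ n`, if and only if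
  it holds for `X` and for `Y` and the groups `GL_m`, `m ≤ n`.
* For every reductive group `G` the same holds with the class of all reductive subgroups of `G`
  instead of the groups `GL_m`.
* A factor `Y` whose semisimple representations of dimension at most `n` have virtually abelian
  image (for instance a special variety) does not matter.

The proof in `Pool.Agent.H88.PC` uses Clifford's theorem, the double centralizer and
Wedderburn's theorem for `GL_n`, and Zariski closures in general.
-/

set_option autoImplicit false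

open Pool.Agent.H88.PW Pool.Agent.H88.PA Pool.Agent.H88.PC

namespace Pool.Agent.Results.MP_65ad7c_ag.ProductsOfVarieties

/-- `p` is one of the properties Q1, Q1 and Q2, `W_{2k+1} ⊆ P_k`, `P_k ⊆ W_{2k}`; `T.Holds p X G`
means that `p` holds for all components of the moduli space of `X` and `G`.

(1) `p` holds for `X × Y` and `GL_m` for all `m ≤ n` if and only if `p` holds for `X` and `GL_m` and
for `Y` and `GL_m` for all `m ≤ n`.

(2) For every reductive group `G`: `p` holds for `X × Y` and all reductive subgroups of `G` if and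
only if `p` holds for `X` and for `Y` and all reductive subgroups of `G`.

(3) If all semisimple representations of the fundamental group of `Y` of dimension at most `n` are
virtually abelian, then `p` holds for `X × Y` and `GL_m` for all `m ≤ n` if and only if `p` holds for
`X` and `GL_m` for all `m ≤ n`. -/
theorem result (T : Pool.Agent.H88.PC.Theory) (p : Bif → Prop) (hp : p = Bif.Q1 ∨
    p = (fun A => A.Q1 ∧ A.Q2) ∨ p = Bif.OddInP ∨ p = Bif.PinW 0) :
    (∀ (X Y : T.Var) (n : ℕ), (∀ m ≤ n, T.Holds p (T.prod X Y) (gl m)) ↔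
      ∀ m ≤ n, T.Holds p X (gl m) ∧ T.Holds p Y (gl m)) ∧
    (∀ (X Y : T.Var) (n : ℕ) (G : Red n),
      (∀ H : Red n, H.pts ≤ G.pts → T.Holds p (T.prod X Y) H) ↔
        ∀ H : Red n, H.pts ≤ G.pts → T.Holds p X H ∧ T.Holds p Y H) ∧
    ∀ (X Y : T.Var) (n : ℕ), (∀ m ≤ n, ∀ ρ : T.grp Y →* Matrix.GeneralLinearGroup (Fin m) ℂ,
        Semi ρ.range → Pool.Agent.H88.PB.VirtuallyAbelian ρ) →
      ((∀ m ≤ n, T.Holds p (T.prod X Y) (gl m)) ↔ ∀ m ≤ n, T.Holds p X (gl m)) := by
  have hs : Pool.Agent.H88.PB.TStable p := by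
    rcases hp with rfl | rfl | rfl | rfl
    · exact Pool.Agent.H88.PB.tstable_q1
    · exact Pool.Agent.H88.PB.TStable.both
    · exact Pool.Agent.H88.PB.tstable_oddInP
    · exact Pool.Agent.H88.PB.tstable_pinW
  have hfst : ∀ (X Y : T.Var) (n : ℕ) (G : Red n), T.Holds p (T.prod X Y) G → T.Holds p X G := by
    intro X Y n G h Z
    obtain ⟨Z', hZ'⟩ := T.pullFst Y Z
    exact hs.summand _ _ hZ' (h Z')
  have hsnd : ∀ (X Y : T.Var) (n : ℕ) (G : Red n), T.Holds p (T.prod X Y) G → T.Holds p Y G := by
    intro X Y n G h Z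
    obtain ⟨Z', hZ'⟩ := T.pullSnd X Z
    exact hs.summand _ _ hZ' (h Z')
  have h1 : ∀ (X Y : T.Var) (n : ℕ), (∀ m ≤ n, T.Holds p (T.prod X Y) (gl m)) ↔
      ∀ m ≤ n, T.Holds p X (gl m) ∧ T.Holds p Y (gl m) := fun X Y n =>
    ⟨fun h m hm => ⟨hfst X Y m _ (h m hm), hsnd X Y m _ (h m hm)⟩,
      fun h m hm => prod_gl T hs X Y fun k hk => h k (hk.trans hm)⟩
  refine ⟨h1, fun X Y n G => ⟨fun h H hH => ⟨hfst X Y n _ (h H hH), hsnd X Y n _ (h H hH)⟩,
    fun h H hH => prod_red T hs X Y H fun K hK => h K (hK.trans hH)⟩, fun X Y n hY => ?_⟩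
  rw [h1]
  refine ⟨fun h m hm => (h m hm).1, fun h m hm => ⟨h m hm, ?_⟩⟩
  exact of_virtuallyAbelian T.toTheory hs.toStable Y (gl m) fun ρ _ hρ => hY m hm ρ hρ

end Pool.Agent.Results.MP_65ad7c_ag.ProductsOfVarieties
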