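import Pool.Agent.H88.PB.Main

/-!
# `P = W` for groups of semisimple rank one

Let `G` be a reductive group whose identity component is `SL₂` or `PGL₂` (`TypeA1`), or a connected
reductive group of semisimple rank one, for instance `GL₂` (`RankOne`). Let `X` be a connected smooth
complex projective variety of any dimension.

* If no subgroup of finite index of the fundamental group of `X` maps onto `ℤ⁴` (that is, if all
  finite étale covers of `X` have irregularity at most one), then Q1 and Q2 hold for `X` and `G`.
* In general Q1 and Q2 for all these `X` and `G` are equivalent to Q1 and Q2 for the varieties whose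
  fundamental group is virtually the fundamental group of a curve of genus at least two; and for a
  fixed `X` only the targets of the fibrations of `X` over hyperbolic orbifold curves matter.

The input is the theorem of Corlette and Simpson on representations of rank two; the definitions are
in `Pool.Agent.H88.PB.Defs`.
-/

set_option autoImplicit false

open Pool.Agent.H88.PW Pool.Agent.H88.PA Pool.Agent.H88.PB

namespace Pool.Agent.Results.MP_65ad7c_ag.RankOneGroups

/-- `p` is one of the properties Q1, Q1 and Q2, `W_{2k+1} ⊆ P_k`, `P_k ⊆ W_{2k}`.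

(1) If no subgroup of finite index of the fundamental group of `X` maps onto `ℤ⁴`, then Q1 and Q2
hold for `X` and all groups `G` of semisimple rank one.

(2) `p` holds for `X` and `G` if it holds for `Z` and `H` for all varieties `Z`, with a virtual
surface group as fundamental group, which are targets of a surjective geometric homomorphism, and all
subgroups `H` of type `A₁` of `G`.

(3) `p` holds for all varieties and all groups of semisimple rank one if and only if it holds for
the varieties whose fundamental group is virtually a surface group, and the groups of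
type `A₁`. -/
theorem result (T : Pool.Agent.H88.PB.Theory) :
    (∀ (X : T.Var) (n : ℕ) (G : Red n), TypeA1 G.pts ∨ RankOne G.pts →
      (∀ K : Subgroup (T.grp X), K.index ≠ 0 →
        ¬ ∃ f : K →* Multiplicative (Fin 4 → ℤ), Function.Surjective f) →
      ∀ Y : T.Comp X G, (T.coh Y).Q1 ∧ (T.coh Y).Q2) ∧
    ∀ p : Bif → Prop, (p = Bif.Q1 ∨ p = (fun A => A.Q1 ∧ A.Q2) ∨ p = Bif.OddInP ∨
        p = Bif.PinW 0) →
      (∀ (X : T.Var) (n : ℕ) (G : Red n), TypeA1 G.pts ∨ RankOne G.pts →
        (∀ (Z : T.Var) (q : T.grp X →* T.grp Z), T.Geo q → Function.Surjective q →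
          VirtuallySurface (T.grp Z) → ∀ H : Red n, H.pts ≤ G.pts → TypeA1 H.pts →
            ∀ Y : T.Comp Z H, p (T.coh Y)) →
        ∀ Y : T.Comp X G, p (T.coh Y)) ∧
      ((∀ (X : T.Var) (n : ℕ) (G : Red n), TypeA1 G.pts ∨ RankOne G.pts →
          ∀ Y : T.Comp X G, p (T.coh Y)) ↔
        ∀ (Z : T.Var) (n : ℕ) (G : Red n), VirtuallySurface (T.grp Z) → TypeA1 G.pts →
          ∀ Y : T.Comp Z G, p (T.coh Y)) := by
  refine ⟨fun X n G hG h Y => ?_, fun p hp => ?_⟩
  · refine of_surface' T TStable.both X G hG (fun Z q _ hq hZ => ?_) Y
    obtain ⟨K, hK, hf⟩ := exists_onto q hq hZ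
    exact absurd hf (h K hK)
  · have hs : TStable p := by
      rcases hp with rfl | rfl | rfl | rfl
      · exact tstable_q1
      · exact TStable.both
      · exact tstable_oddInP
      · exact tstable_pinW
    refine ⟨fun X n G hG h Y => of_surface' T hs X G hG h Y, fun h Z n G _ hG Y =>
      h Z n G (Or.inl hG) Y, fun h X n G hG Y => ?_⟩
    exact of_surface' T hs X G hG (fun Z q _ _ hZ H _ hH Y' => h Z n H hZ hH Y') Y

end Pool.Agent.Results.MP_65ad7c_ag.RankOneGroups
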