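import Pool.Agent.H88.PA.Main

/-!
# `P = W` for varieties whose fundamental group has only virtually abelian reductive images

Let `X` be a connected smooth complex projective variety and `G` a reductive group, not necessarily
connected. If every reductive representation of the fundamental group of `X` in `G` has virtually
abelian image, then Q1 and Q2 hold for `X` and `G`. This is the case, for all `G`, if the
fundamental group of `X` is virtually abelian, more generally if it contains no nonabelian free
group, and for all varieties which are special in the sense of Campana (by a theorem of Campana,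
Claudon and Eyssidieux).

In general Q1 and Q2 for `X` and all reductive groups follow from Q1 and Q2 for the components which
contain a Zariski dense representation in a group whose identity component is not a torus.

The definitions are in `Pool.Agent.H88.PA.Defs` and `Pool.Agent.H88.PW.Defs`.
-/

set_option autoImplicit false

open Pool.Agent.H88.PW Pool.Agent.H88.PA

namespace Pool.Agent.Results.MP_65ad7c_ag.VirtuallyAbelianImages

/-- Let `X` be a variety, with fundamental group `T.grp X`.

(1) Let `G` be a reductive group such that every semisimple representation of the fundamental group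
in `G` maps some subgroup `B` of finite index to an abelian group. Then Q1 and Q2 hold for `X` and
`G`.

(2) If the fundamental group has an abelian subgroup of finite index, Q1 and Q2 hold for `X` and all
reductive groups.

(3) Q1 (or Q2, or `W_{2k+1} ⊆ P_k`, or `P_k ⊆ W_{2k}`) holds for `X` and `G` if it holds for all
components for `X` and `N` which contain a representation that is Zariski dense in `N`, where
`N` runs through the reductive subgroups of `G` whose identity component is not a torus. -/
theorem result (T : Pool.Agent.H88.PA.Theory) (X : T.Var) :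
    (∀ (n : ℕ) (G : Red n),
      (∀ ρ : T.grp X →* GL (Fin n) ℂ, (∀ γ, ρ γ ∈ G.pts) → Semi ρ.range →
        ∃ B : Subgroup (T.grp X), B.index ≠ 0 ∧ ∀ a ∈ B, ∀ b ∈ B, ρ a * ρ b = ρ b * ρ a) →
      ∀ Y : T.Comp X G, (T.coh Y).Q1 ∧ (T.coh Y).Q2) ∧
    ((∃ B : Subgroup (T.grp X), B.index ≠ 0 ∧ ∀ a ∈ B, ∀ b ∈ B, a * b = b * a) →
      ∀ (n : ℕ) (G : Red n) (Y : T.Comp X G), (T.coh Y).Q1 ∧ (T.coh Y).Q2) ∧
    ∀ p : Bif → Prop, p = Bif.Q1 ∨ p = Bif.Q2 ∨ p = Bif.OddInP ∨ p = Bif.PinW 0 →
      ∀ (n : ℕ) (G : Red n),
        (∀ N : Red n, N.pts ≤ G.pts → ¬ TorusByFinite N.pts → ∀ Y : T.Comp X N,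
          (∃ ρ, T.On Y ρ ∧ Dense N ρ) → p (T.coh Y)) → ∀ Y : T.Comp X G, p (T.coh Y) := by
  have h1 : ∀ (n : ℕ) (G : Red n),
      (∀ ρ : T.grp X →* GL (Fin n) ℂ, (∀ γ, ρ γ ∈ G.pts) → Semi ρ.range →
        ∃ B : Subgroup (T.grp X), B.index ≠ 0 ∧ ∀ a ∈ B, ∀ b ∈ B, ρ a * ρ b = ρ b * ρ a) →
      ∀ Y : T.Comp X G, (T.coh Y).Q1 ∧ (T.coh Y).Q2 := fun n G h Y =>
    ⟨of_virtuallyAbelian T stable_q1 X G h Y, of_virtuallyAbelian T stable_q2 X G h Y⟩
  refine ⟨h1, ?_, ?_⟩
  · rintro ⟨B, hB, hc⟩ n G Y
    exact h1 n G (fun ρ _ _ => ⟨B, hB, fun a ha b hb => by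
      rw [← map_mul, hc a ha b hb, map_mul]⟩) Y
  · rintro p (rfl | rfl | rfl | rfl) n G h
    · exact of_dense T stable_q1 X G h
    · exact of_dense T stable_q2 X G h
    · exact of_dense T stable_oddInP X G h
    · exact of_dense T stable_pinW X G h

end Pool.Agent.Results.MP_65ad7c_ag.VirtuallyAbelianImages
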